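import Pool.Agent.H30.FMT.Defs
import Pool.Agent.H11.T4.Defs

open Finset

namespace Pool.Agent.H30.FMT

variable {n k : ℕ}

/-- the vertex set of a tuple -/
def im (t : Fin (k + 1) → Fin n) : Finset (Fin n) := univ.image t

theorem mem_im {t : Fin (k + 1) → Fin n} {v : Fin n} : v ∈ im t ↔ ∃ i, t i = v := by
  simp [im]

theorem card_im {t : Fin (k + 1) → Fin n} (ht : StrictMono t) : #(im t) = k + 1 := by
  unfold im
  rw [card_image_of_injective _ ht.injective]
  simp

theorem im_inj {t r : Fin (k + 1) → Fin n} (ht : StrictMono t) (hr : StrictMono r)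
    (h : im t = im r) : t = r := by
  have h2 : Set.range t = Set.range r := by
    ext v
    have := congrArg (fun s => v ∈ s) h
    simp only [eq_iff_iff, mem_im] at this
    simpa using this
  exact (StrictMono.range_inj ht hr).1 h2

theorem pos_im {t : Fin (k + 1) → Fin n} (ht : StrictMono t) (i : Fin (k + 1)) :
    pos (im t) (t i) = i := by
  have : ({w ∈ im t | w < t i} : Finset (Fin n)) = (Finset.Iio i).image t := by
    ext v
    simp only [mem_filter, mem_im, mem_image, mem_Iio]
    constructor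
    · rintro ⟨⟨j, rfl⟩, h⟩
      exact ⟨j, ht.lt_iff_lt.1 h, rfl⟩
    · rintro ⟨j, h, rfl⟩
      exact ⟨⟨j, rfl⟩, ht h⟩
  unfold pos
  rw [this, card_image_of_injective _ ht.injective]
  simp

/-- every simplex is the vertex set of its increasing enumeration -/
theorem exists_im {s : Finset (Fin n)} (h : #s = k + 1) :
    ∃ t : Fin (k + 1) → Fin n, StrictMono t ∧ im t = s := by
  refine ⟨s.orderEmbOfFin h, (s.orderEmbOfFin h).strictMono, ?_⟩
  unfold im
  rw [← Finset.coe_inj]
  simp

open Classical in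
/-- the cochain on simplices given by a cochain on tuples -/
noncomputable def lift {R : Type} [Ring R] (d : (Fin (k + 1) → Fin n) → R) (s : Finset (Fin n)) : R :=
  if h : ∃ t : Fin (k + 1) → Fin n, StrictMono t ∧ im t = s then d h.choose else 0

theorem lift_im {R : Type} [Ring R] (d : (Fin (k + 1) → Fin n) → R) {t : Fin (k + 1) → Fin n}
    (ht : StrictMono t) : lift d (im t) = d t := by
  unfold lift
  have h : ∃ r : Fin (k + 1) → Fin n, StrictMono r ∧ im r = im t := ⟨t, ht, rfl⟩
  rw [dif_pos h]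
  congr 1
  exact im_inj h.choose_spec.1 ht h.choose_spec.2

theorem cobd_im {R : Type} [Ring R] (c : Finset (Fin n) → R) {t : Fin (k + 2) → Fin n}
    (ht : StrictMono t) : cobd c (im t) = Pool.T4.cobd (fun r : Fin (k + 1) → Fin n => c (im r)) t := by
  unfold cobd Pool.T4.cobd
  conv_lhs => rw [im]
  rw [sum_image (fun i _ j _ h => ht.injective h)]
  refine sum_congr rfl fun i _ => ?_
  have h1 : pos (image t univ) (t i) = i := pos_im ht i
  rw [h1]
  congr 2
  ext v
  simp only [mem_erase, mem_image, mem_univ, true_and, mem_im, Function.comp]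
  constructor
  · rintro ⟨h, j, rfl⟩
    have hj : j ≠ i := fun e => h (by rw [e])
    obtain ⟨l, hl⟩ := Fin.exists_succAbove_eq hj
    exact ⟨l, by rw [hl]⟩
  · rintro ⟨l, rfl⟩
    exact ⟨fun e => Fin.succAbove_ne i l (ht.injective e), _, rfl⟩

theorem cobd_congr {R : Type} [Ring R] {c d : (Fin (k + 1) → Fin n) → R}
    (h : ∀ t, StrictMono t → c t = d t) {t : Fin (k + 2) → Fin n} (ht : StrictMono t) :
    Pool.T4.cobd c t = Pool.T4.cobd d t := by
  unfold Pool.T4.cobd
  refine sum_congr rfl fun i _ => ?_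
  rw [h _ (ht.comp (Fin.strictMono_succAbove i))]

open Classical in
/-- the family of faces -/
noncomputable def faces (K : AbstractSimplicialComplex (Fin n)) : Finset (Finset (Fin n)) :=
  univ.filter fun s => s ∈ K.faces

theorem mem_faces {K : AbstractSimplicialComplex (Fin n)} {s : Finset (Fin n)} :
    s ∈ faces K ↔ s ∈ K.faces := by
  simp [faces]

theorem mem_simp {K : AbstractSimplicialComplex (Fin n)} {t : Fin (k + 1) → Fin n} :
    t ∈ Pool.T4.simp K k ↔ StrictMono t ∧ im t ∈ faces K := by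
  simp [Pool.T4.simp, mem_faces, im]

theorem isCpx (K : AbstractSimplicialComplex (Fin n)) : IsCpx (faces K) := by
  constructor
  · intro h
    have := (K.isRelLowerSet_faces (mem_faces.1 h)).1
    simp at this
  · intro s hs t hts ht
    exact mem_faces.2 ((K.isRelLowerSet_faces (mem_faces.1 hs)).2 hts ht)

theorem sum_faces {R : Type} [Ring R] (K : AbstractSimplicialComplex (Fin n))
    (F : Finset (Fin n) → R) :
    ∑ s ∈ faces K with #s = k + 1, F s = ∑ t ∈ Pool.T4.simp K k, F (im t) := by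
  symm
  refine sum_bij (fun t _ => im t) ?_ ?_ ?_ ?_
  · intro t ht
    rw [mem_simp] at ht
    exact mem_filter.2 ⟨ht.2, card_im ht.1⟩
  · intro t ht r hr h
    exact im_inj (mem_simp.1 ht).1 (mem_simp.1 hr).1 h
  · intro s hs
    obtain ⟨h1, h2⟩ := mem_filter.1 hs
    obtain ⟨t, ht, rfl⟩ := exists_im h2
    exact ⟨t, mem_simp.2 ⟨ht, h1⟩, rfl⟩
  · intro t _
    rfl

theorem isCocycle_lift {R : Type} [Ring R] {K : AbstractSimplicialComplex (Fin n)}
    {c : (Fin (k + 1) → Fin n) → R} (h : Pool.T4.IsCocycle K c) :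
    IsCocycle (faces K) k (lift c) := by
  intro s hs hc
  obtain ⟨t, ht, rfl⟩ := exists_im (k := k + 1) hc
  rw [cobd_im _ ht, cobd_congr (d := c) (fun r hr => lift_im c hr) ht]
  exact h t (mem_simp.2 ⟨ht, hs⟩)

theorem isCocycle_im {R : Type} [Ring R] {K : AbstractSimplicialComplex (Fin n)}
    {c : Finset (Fin n) → R} (h : IsCocycle (faces K) k c) :
    Pool.T4.IsCocycle K (fun r : Fin (k + 1) → Fin n => c (im r)) := by
  intro t ht
  obtain ⟨h1, h2⟩ := mem_simp.1 ht
  rw [← cobd_im c h1]
  exact h _ h2 (card_im h1)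

theorem isFundCycle {K : AbstractSimplicialComplex (Fin n)} {o : (Fin 5 → Fin n) → ℤ}
    (h : Pool.T4.IsFundCycle K o) : IsFundCycle (faces K) (lift (k := 4) o) := by
  constructor
  · intro s hs hc
    obtain ⟨t, ht, rfl⟩ := exists_im (k := 4) hc
    rw [lift_im _ ht]
    exact h.1 t (mem_simp.2 ⟨ht, hs⟩)
  · intro c
    rw [sum_faces (k := 4)]
    rw [← h.2 (fun r : Fin 4 → Fin n => c (im (k := 3) r))]
    refine sum_congr rfl fun t ht => ?_
    have ht := (mem_simp.1 ht).1
    rw [lift_im _ ht, cobd_im (k := 3) _ ht]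

theorem qform_im (K : AbstractSimplicialComplex (Fin n)) (o : (Fin 5 → Fin n) → ℤ)
    (z : Finset (Fin n) → ℝ) :
    qform (faces K) (lift (k := 4) o) z = Pool.T4.qform K o (fun r => z (im (k := 2) r)) := by
  unfold qform Pool.T4.qform Pool.T4.evalOn Pool.T4.cup
  rw [sum_faces (k := 4)]
  refine sum_congr rfl fun t ht => ?_
  have ht := (mem_simp.1 ht).1
  rw [lift_im _ ht]
  congr 2
  · congr 1
    ext v
    simp only [mem_filter, mem_im]
    constructor
    · rintro ⟨⟨i, rfl⟩, h⟩
      rw [pos_im ht] at h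
      exact ⟨⟨i, by omega⟩, rfl⟩
    · rintro ⟨i, rfl⟩
      refine ⟨⟨_, rfl⟩, ?_⟩
      rw [pos_im ht]
      simp only
      omega
  · congr 1
    ext v
    simp only [mem_filter, mem_im]
    constructor
    · rintro ⟨⟨i, rfl⟩, h⟩
      rw [pos_im ht] at h
      refine ⟨⟨i - 2, by omega⟩, ?_⟩
      congr 1
      ext
      simp only
      omega
    · rintro ⟨i, rfl⟩
      refine ⟨⟨_, rfl⟩, ?_⟩
      rw [pos_im ht]
      simp only
      omega

theorem qform_congr {K : AbstractSimplicialComplex (Fin n)} {o : (Fin 5 → Fin n) → ℤ}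
    {z w : (Fin 3 → Fin n) → ℝ} (h : ∀ t, StrictMono t → z t = w t) :
    Pool.T4.qform K o z = Pool.T4.qform K o w := by
  unfold Pool.T4.qform Pool.T4.evalOn Pool.T4.cup
  refine sum_congr rfl fun t ht => ?_
  have ht := (mem_simp.1 ht).1
  rw [h (fun i => t ⟨i, by omega⟩) (fun i j hij => ht (by simpa using hij)),
    h (fun i => t ⟨2 + i, by omega⟩) (fun i j hij => ht (by simpa using hij))]

end Pool.Agent.H30.FMT
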