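import Pool.Agent.H30.FMT.Conv

open Finset

namespace Pool.Agent.H30.FMT

variable {n k : ℕ}

theorem im_pair {t : Fin (4 + 1) → Fin n} (ht : StrictMono t) (a : ℕ) (ha : a < 4) :
    ({v ∈ im t | pos (im t) v = a ∨ pos (im t) v = a + 1} : Finset (Fin n)) =
      im (k := 1) (fun i => t ⟨a + i, by omega⟩) := by
  ext v
  simp only [mem_filter, mem_im]
  constructor
  · rintro ⟨⟨i, rfl⟩, h⟩
    rw [pos_im ht] at h
    rcases h with h | h
    · exact ⟨0, congrArg t (Fin.ext (by simpa using h.symm))⟩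
    · exact ⟨1, congrArg t (Fin.ext (by simpa using h.symm))⟩
  · rintro ⟨i, rfl⟩
    refine ⟨⟨_, rfl⟩, ?_⟩
    rw [pos_im ht]
    simp only
    omega

theorem degree_im (K : AbstractSimplicialComplex (Fin n)) (o : (Fin 5 → Fin n) → ℤ)
    (x : Fin 4 → (Fin 2 → Fin n) → ℤ) :
    degree (faces K) (lift (k := 4) o) (fun i => lift (k := 1) (x i)) =
      Pool.T4.degreeOf K o x := by
  unfold degree Pool.T4.degreeOf Pool.T4.evalOn
  rw [sum_faces (k := 4)]
  refine sum_congr rfl fun t ht => ?_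
  have ht := (mem_simp.1 ht).1
  rw [lift_im _ ht, Fin.prod_univ_four]
  have key : ∀ (a : Fin 4), lift (k := 1) (x a)
      ({v ∈ im t | pos (im t) v = a ∨ pos (im t) v = a + 1} : Finset (Fin n)) =
        x a (fun i => t ⟨a + i, by omega⟩) := by
    intro a
    rw [im_pair ht a a.2]
    exact lift_im (k := 1) _ (fun i j hij => ht (by simpa using hij))
  beta_reduce
  rw [key 0, key 1, key 2, key 3]
  have e0 : (fun i : Fin 2 => t ⟨((0 : Fin 4) : ℕ) + i, by omega⟩) = fun i : Fin 2 => t ⟨i, by omega⟩ := by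
    funext i
    exact congrArg t (Fin.ext (by simp))
  rw [e0]
  rfl

theorem eulerChar_eq (K : AbstractSimplicialComplex (Fin n)) :
    eulerChar (faces K) = Pool.T4.eulerChar K := by
  unfold eulerChar Pool.T4.eulerChar
  have hmap : ∀ s ∈ faces K, #s - 1 ∈ range n := by
    intro s hs
    have h1 : s.Nonempty := (K.isRelLowerSet_faces (mem_faces.1 hs)).1
    have h2 : #s ≤ n := by simpa using card_le_univ s
    have h3 := h1.card_pos
    rw [mem_range]
    omega
  rw [← sum_fiberwise_of_maps_to hmap]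
  refine sum_congr rfl fun k _ => ?_
  have hf : (faces K).filter (fun s => #s - 1 = k) = (faces K).filter (fun s => #s = k + 1) := by
    refine filter_congr fun s hs => ?_
    have h3 := ((K.isRelLowerSet_faces (mem_faces.1 hs)).1 : s.Nonempty).card_pos
    omega
  rw [hf]
  have h1 : ∑ s ∈ faces K with #s = k + 1, (-1 : ℤ) ^ (#s + 1) =
      ∑ s ∈ faces K with #s = k + 1, (-1 : ℤ) ^ k := by
    refine sum_congr rfl fun s hs => ?_
    rw [(mem_filter.1 hs).2, pow_succ, pow_succ]
    ring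
  rw [h1, sum_faces, sum_const, nsmul_eq_mul]
  ring

theorem isIndex {K : AbstractSimplicialComplex (Fin n)}
    {Q : (Finset (Fin n) → ℝ) → ℝ} {P : ((Fin 3 → Fin n) → ℝ) → ℝ} (h0 : P 0 ≤ 0)
    (hQ : ∀ z, Q z = P (fun r => z (im (k := 2) r)))
    (hP : ∀ z w, (∀ t, StrictMono t → z t = w t) → P z = P w) {b : ℕ}
    (hb : IsGreatest {d | ∃ W : Submodule ℝ ((Fin 3 → Fin n) → ℝ), Module.finrank ℝ W = d ∧
      (∀ z ∈ W, Pool.T4.IsCocycle (k := 2) K z) ∧ ∀ z ∈ W, z ≠ 0 → 0 < P z} b) :
    IsIndex (faces K) Q b := by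
  constructor
  · obtain ⟨W, hW, h1, h2⟩ := hb.1
    obtain ⟨B⟩ : Nonempty (Module.Basis (Fin b) ℝ W) := ⟨Module.finBasisOfFinrankEq ℝ W hW⟩
    refine ⟨fun i => lift (k := 2) (B i : (Fin 3 → Fin n) → ℝ), fun i => isCocycle_lift (h1 _ (B i).2),
      fun a ha => ?_⟩
    rw [hQ]
    have hz : (∑ i, a i • B i : W) ≠ 0 := by
      intro e
      obtain ⟨i, hi⟩ := ha
      exact hi (Fintype.linearIndependent_iff.1 B.linearIndependent a e i)
    have h3 := h2 _ (∑ i, a i • B i : W).2 (fun e => hz (Subtype.ext e))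
    refine lt_of_lt_of_eq h3 (hP _ _ fun t ht => ?_)
    simp only [Submodule.coe_sum, Submodule.coe_smul, Finset.sum_apply, Pi.smul_apply, smul_eq_mul]
    exact sum_congr rfl fun i _ => by rw [lift_im _ ht]
  · rintro d ⟨z, h1, h2⟩
    let y : Fin d → (Fin 3 → Fin n) → ℝ := fun i r => z i (im (k := 2) r)
    have hy : ∀ a : Fin d → ℝ, (fun r : Fin 3 → Fin n => ∑ i, a i * z i (im (k := 2) r)) =
        ∑ i, a i • y i := by
      intro a
      funext r
      simp [y, Finset.sum_apply]
    have hpos : ∀ a : Fin d → ℝ, (∃ i, a i ≠ 0) → 0 < P (∑ i, a i • y i) := by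
      intro a ha
      have := h2 a ha
      rw [hQ, hy] at this
      exact this
    have hli : LinearIndependent ℝ y := by
      rw [Fintype.linearIndependent_iff]
      intro a ha
      by_contra hne
      push Not at hne
      have := hpos a hne
      rw [ha] at this
      linarith
    refine hb.2 ⟨Submodule.span ℝ (Set.range y), ?_, ?_, ?_⟩
    · rw [finrank_span_eq_card hli]
      simp
    · intro w hw
      obtain ⟨a, rfl⟩ := (Submodule.mem_span_range_iff_exists_fun ℝ).1 hw
      intro t ht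
      have h3 : ∀ i, Pool.T4.cobd (y i) t = 0 := fun i => isCocycle_im (h1 i) t ht
      unfold Pool.T4.cobd at h3 ⊢
      simp only [Finset.sum_apply, Pi.smul_apply, smul_eq_mul, Finset.mul_sum]
      rw [sum_comm]
      refine sum_eq_zero fun i _ => ?_
      have : ∀ j : Fin (2 + 2), (-1 : ℝ) ^ (j : ℕ) * (a i * y i (t ∘ j.succAbove)) =
          a i * ((-1 : ℝ) ^ (j : ℕ) * y i (t ∘ j.succAbove)) := fun j => by ring
      rw [sum_congr rfl fun j _ => this j, ← mul_sum, h3 i, mul_zero]
    · intro w hw hne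
      obtain ⟨a, rfl⟩ := (Submodule.mem_span_range_iff_exists_fun ℝ).1 hw
      refine hpos a ?_
      by_contra hcon
      push Not at hcon
      exact hne (sum_eq_zero fun i _ => by rw [hcon i, zero_smul])

theorem isIndex_plus {K : AbstractSimplicialComplex (Fin n)} {o : (Fin 5 → Fin n) → ℤ} {b : ℕ}
    (h : Pool.T4.IsBplus K o b) : IsIndex (faces K) (qform (faces K) (lift (k := 4) o)) b := by
  refine isIndex (P := Pool.T4.qform K o) ?_ (qform_im K o) (fun z w hzw => qform_congr hzw) h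
  simp [Pool.T4.qform, Pool.T4.evalOn, Pool.T4.cup]

theorem isIndex_minus {K : AbstractSimplicialComplex (Fin n)} {o : (Fin 5 → Fin n) → ℤ} {b : ℕ}
    (h : Pool.T4.IsBminus K o b) :
    IsIndex (faces K) (fun z => -qform (faces K) (lift (k := 4) o) z) b := by
  refine isIndex (P := fun z => -Pool.T4.qform K o z) ?_ (fun z => by rw [qform_im])
    (fun z w hzw => by rw [qform_congr hzw]) ?_
  · simp [Pool.T4.qform, Pool.T4.evalOn, Pool.T4.cup]
  · simpa [Pool.T4.IsBminus] using h

end Pool.Agent.H30.FMT
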