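import Pool.Agent.H30.FMT.Conv2
import Pool.Agent.H11.T4.Fin

open Finset

namespace Pool.Agent.H30.FMT

theorem piOneIso {X Y : Type} [TopologicalSpace X] [TopologicalSpace Y] (f : C(X, Y))
    (h : ∀ p, Function.Bijective (FundamentalGroup.map f p)) : PiOneIso f := by
  refine ⟨f.continuous, fun p => ⟨fun c => ?_, fun a b hab => ?_⟩⟩
  · obtain ⟨q, hq⟩ := (h p).2 (FundamentalGroup.fromPath (Path.Homotopic.Quotient.mk c))
    obtain ⟨a, rfl⟩ := Quotient.exists_rep q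
    exact ⟨a, Path.Homotopic.Quotient.exact hq⟩
  · have := (h p).1 (a₁ := FundamentalGroup.fromPath (Path.Homotopic.Quotient.mk a))
      (a₂ := FundamentalGroup.fromPath (Path.Homotopic.Quotient.mk b))
      (Path.Homotopic.Quotient.eq.2 hab)
    exact Path.Homotopic.Quotient.exact this

theorem isClosedMfd {X : Type} [TopologicalSpace X]
    (h : Nonempty (ChartedSpace (EuclideanSpace ℝ (Fin 4)) X)) (h1 : CompactSpace X)
    (h2 : T2Space X) (h3 : ConnectedSpace X) : IsClosedMfd X (Fin 4 → ℝ) := by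
  refine ⟨h1, h2, h3, fun p => ?_⟩
  obtain ⟨C⟩ := h
  refine ⟨(chartAt (EuclideanSpace ℝ (Fin 4)) p).trans
    (EuclideanSpace.equiv (Fin 4) ℝ).toHomeomorph.toOpenPartialHomeomorph, ?_⟩
  simp

variable {n : ℕ}

theorem geom_faces (K : AbstractSimplicialComplex (Fin n)) : Geom (faces K) = Pool.T4.Geom K := by
  ext p
  simp only [Geom, Pool.T4.Geom, Set.mem_ofPred_eq, mem_faces]

theorem alt_eq (x : (Fin 2 → Fin n) → ℤ) (v w : Fin n) :
    Pool.T4.alt x v w = Int.sign ((w : ℤ) - v) * lift (k := 1) x {v, w} := by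
  unfold Pool.T4.alt
  rcases lt_trichotomy v w with h | h | h
  · have hm : StrictMono (![v, w] : Fin (1 + 1) → Fin n) := by
      intro i j hij
      fin_cases i <;> fin_cases j <;> simp_all
    have hi : ({v, w} : Finset (Fin n)) = im (k := 1) ![v, w] := by
      ext u
      simp [mem_im, eq_comm]
    rw [if_pos h, hi, lift_im _ hm, Int.sign_eq_one_of_pos, one_mul]
    have : (v : ℕ) < w := h
    omega
  · subst h
    simp
  · have hm : StrictMono (![w, v] : Fin (1 + 1) → Fin n) := by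
      intro i j hij
      fin_cases i <;> fin_cases j <;> simp_all
    have hi : ({v, w} : Finset (Fin n)) = im (k := 1) ![w, v] := by
      ext u
      simp [mem_im, eq_comm, or_comm]
    rw [if_neg (not_lt.2 h.le), if_pos h, hi, lift_im _ hm, Int.sign_eq_neg_one_of_neg, neg_one_mul]
    have : (w : ℕ) < v := h
    omega

theorem transport (K : AbstractSimplicialComplex (Fin n)) (x : Fin 4 → (Fin 2 → Fin n) → ℤ)
    (f : C(Pool.T4.Geom K, Pool.T4.Torus4)) (hf : Pool.T4.IsMapOf K x f)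
    (h0 : Nonempty (ChartedSpace (EuclideanSpace ℝ (Fin 4)) (Pool.T4.Geom K)))
    (h1 : CompactSpace (Pool.T4.Geom K)) (h2 : T2Space (Pool.T4.Geom K))
    (h3 : ConnectedSpace (Pool.T4.Geom K))
    (hpi : ∀ p, Function.Bijective (FundamentalGroup.map f p))
    (S : Set (Fin n → ℝ)) (hS : S = Pool.T4.Geom K) :
    IsClosedMfd S (Fin 4 → ℝ) ∧ ∃ g : S → Fin 4 → AddCircle (1 : ℝ), PiOneIso g ∧
      ∀ (p : S) (v : Fin n), p.1 v ≠ 0 → ∀ i,
        g p i = (∑ w, p.1 w * (Int.sign ((w : ℤ) - v) * lift (k := 1) (x i) {v, w} : ℤ) : ℝ) := by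
  subst hS
  refine ⟨isClosedMfd h0 h1 h2 h3, f, piOneIso f hpi, fun p v hv i => ?_⟩
  rw [hf.2 p v hv i]
  simp only [alt_eq]

theorem main : ∃ (n : ℕ) (K : Finset (Finset (Fin n))) (o : Finset (Fin n) → ℤ)
    (x : Fin 4 → Finset (Fin n) → ℤ) (f : Geom K → Fin 4 → AddCircle (1 : ℝ)),
    IsCpx K ∧ IsClosedMfd (Geom K) (Fin 4 → ℝ) ∧ IsFundCycle K o ∧
    IsMapOf K x f ∧ PiOneIso f ∧ degree K o x = 2 ∧
    IsIndex K (qform K o) 5 ∧ IsIndex K (fun z => -qform K o z) 9 ∧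
    eulerChar K = 8 ∧ (8 : ℤ) < |(5 : ℤ) - 9| + 6 := by
  obtain ⟨f, hf, hpi⟩ := Pool.T4.map_exists
  obtain ⟨hM, g, hg, hgx⟩ := transport Pool.T4.KK Pool.T4.xx f hf Pool.T4.manifold
    Pool.T4.topology.1 Pool.T4.topology.2.1 Pool.T4.topology.2.2 hpi _ (geom_faces Pool.T4.KK)
  exact ⟨45, faces Pool.T4.KK, lift (k := 4) Pool.T4.oo, fun i => lift (k := 1) (Pool.T4.xx i), g,
    isCpx _, hM, isFundCycle Pool.T4.fundCycle, ⟨fun i => isCocycle_lift (hf.1 i), hgx⟩, hg,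
    (degree_im _ _ _).trans Pool.T4.degree_eq, isIndex_plus Pool.T4.b_plus_minus.1,
    isIndex_minus Pool.T4.b_plus_minus.2, (eulerChar_eq _).trans Pool.T4.euler, by norm_num⟩

end Pool.Agent.H30.FMT
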