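import Mathlib

open Finset

namespace Pool.Agent.H30.FMT

section Top

variable {X Y : Type} [TopologicalSpace X] [TopologicalSpace Y]

/-- `X` is compact, Hausdorff, connected, and every point of it has an open neighbourhood
homeomorphic to an open subset of `Y`; for `Y = ℝ⁴`: a closed connected topological 4-manifold. -/
def IsClosedMfd (X Y : Type) [TopologicalSpace X] [TopologicalSpace Y] : Prop :=
  CompactSpace X ∧ T2Space X ∧ ConnectedSpace X ∧
    ∀ p : X, ∃ e : OpenPartialHomeomorph X Y, p ∈ e.source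

/-- `f` is continuous and induces an isomorphism of fundamental groups at every base point `p`:
every loop at `f p` is homotopic to the image of a loop at `p`, and loops at `p` with homotopic
images are homotopic. -/
def PiOneIso (f : X → Y) : Prop :=
  ∃ h : Continuous f, ∀ p : X, (∀ c : Path (f p) (f p), ∃ a : Path p p, (a.map h).Homotopic c) ∧
    ∀ a b : Path p p, (a.map h).Homotopic (b.map h) → a.Homotopic b

end Top

variable {n : ℕ}

/-- `K` is a finite simplicial complex with vertices among `0, …, n-1`. -/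
def IsCpx (K : Finset (Finset (Fin n))) : Prop :=
  ∅ ∉ K ∧ ∀ s ∈ K, ∀ t ⊆ s, t.Nonempty → t ∈ K

/-- The geometric realisation of `K`: the points of `ℝⁿ` with nonnegative coordinates with
sum `1` (barycentric coordinates) whose support is a face of `K`. -/
def Geom (K : Finset (Finset (Fin n))) : Set (Fin n → ℝ) :=
  {p | (∀ i, 0 ≤ p i) ∧ ∑ i, p i = 1 ∧ (univ.filter fun i => p i ≠ 0) ∈ K}

/-- The number of vertices of the simplex `s` below `v`. -/
def pos (s : Finset (Fin n)) (v : Fin n) : ℕ := #{w ∈ s | w < v}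

/-- The simplicial coboundary of a cochain `c` (a function on simplices), on the simplex `s`. -/
def cobd {R : Type} [Ring R] (c : Finset (Fin n) → R) (s : Finset (Fin n)) : R :=
  ∑ v ∈ s, (-1) ^ pos s v * c (s.erase v)

/-- `c` is a `k`-cocycle of `K`: its coboundary vanishes on the `(k+1)`-simplices. -/
def IsCocycle {R : Type} [Ring R] (K : Finset (Finset (Fin n))) (k : ℕ)
    (c : Finset (Fin n) → R) : Prop :=
  ∀ s ∈ K, #s = k + 2 → cobd c s = 0

/-- `o` is a fundamental cycle of the 4-dimensional complex `K`: a chain with coefficients `±1`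
on all 4-simplices which is a cycle, that is, it vanishes on all coboundaries. -/
def IsFundCycle (K : Finset (Finset (Fin n))) (o : Finset (Fin n) → ℤ) : Prop :=
  (∀ s ∈ K, #s = 5 → o s = 1 ∨ o s = -1) ∧
    ∀ c : Finset (Fin n) → ℤ, ∑ s ∈ K with #s = 5, o s * cobd c s = 0

/-- Euler characteristic. -/
def eulerChar (K : Finset (Finset (Fin n))) : ℤ := ∑ s ∈ K, (-1) ^ (#s + 1)

/-- `⟨z ∪ z, [K]⟩` for a real 2-cochain `z` (Alexander-Whitney cup product: on `v₀ < … < v₄` it is
`z(v₀ v₁ v₂) z(v₂ v₃ v₄)`). -/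
noncomputable def qform (K : Finset (Finset (Fin n))) (o : Finset (Fin n) → ℤ)
    (z : Finset (Fin n) → ℝ) : ℝ :=
  ∑ s ∈ K with #s = 5, o s * (z {v ∈ s | pos s v ≤ 2} * z {v ∈ s | 2 ≤ pos s v})

/-- `b` is the maximal dimension of a space of real 2-cocycles on which `Q` is positive definite:
the largest number of 2-cocycles `z i` such that `Q` is positive on all their nonzero
combinations. -/
def IsIndex (K : Finset (Finset (Fin n))) (Q : (Finset (Fin n) → ℝ) → ℝ) (b : ℕ) : Prop :=
  IsGreatest {d | ∃ z : Fin d → Finset (Fin n) → ℝ, (∀ i, IsCocycle K 2 (z i)) ∧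
    ∀ a : Fin d → ℝ, (∃ i, a i ≠ 0) → 0 < Q (fun s => ∑ i, a i * z i s)} b

/-- `f : |K| → T⁴` is the map given by the four integral 1-cocycles `x i`: it sends all vertices to
`0`, it is affine on every simplex, and the `i`-th coordinate winds `x i {v, w}` times along the
edge from `v` to `w`, for `v < w`. In particular `f^*` of the standard generators of `H¹(T⁴; ℤ)`
are the classes of the `x i`. -/
def IsMapOf (K : Finset (Finset (Fin n))) (x : Fin 4 → Finset (Fin n) → ℤ)
    (f : Geom K → Fin 4 → AddCircle (1 : ℝ)) : Prop :=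
  (∀ i, IsCocycle K 1 (x i)) ∧ ∀ (p : Geom K) (v : Fin n), p.1 v ≠ 0 → ∀ i,
    f p i = (∑ w, p.1 w * (Int.sign ((w : ℤ) - v) * x i {v, w} : ℤ) : ℝ)

/-- The degree of the map given by the cocycles `x i`:
`⟨f^*(θ₀ ∪ θ₁ ∪ θ₂ ∪ θ₃), [K]⟩`, where the `θ i` are the standard generators of `H¹(T⁴; ℤ)`;
the cup product is `x₀(v₀ v₁) x₁(v₁ v₂) x₂(v₂ v₃) x₃(v₃ v₄)` on `v₀ < … < v₄`. -/
def degree (K : Finset (Finset (Fin n))) (o : Finset (Fin n) → ℤ)
    (x : Fin 4 → Finset (Fin n) → ℤ) : ℤ :=
  ∑ s ∈ K with #s = 5, o s * ∏ i : Fin 4, x i {v ∈ s | pos s v = i ∨ pos s v = i + 1}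

end Pool.Agent.H30.FMT
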